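import Pool.Agent.H78.RP.Main

/-!
# Rational periods: coordinates, the parabolic group, the final statement
-/

namespace Pool.Agent.H78.RP

open Filter Topology Pool.Agent.H83.HN Pool.Agent.H47.P
open scoped BigOperators

variable {n : ℕ}

lemma form_vec_left (G : Matrix (Fin n) (Fin n) ℤ) (x : Fin n → ℤ) (u : Fin n → ℝ) :
    form G (vec x) u = ∑ j, u j * (qi G x (Pi.single j 1) : ℝ) := by
  have h : ∀ j, (qi G x (Pi.single j 1) : ℝ) = ∑ i, (x i : ℝ) * G i j := by
    intro j
    rw [qi_cast]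
    simp only [form, vec]
    refine Finset.sum_congr rfl fun i _ => ?_
    rw [Finset.sum_eq_single j]
    · simp
    · intro k _ hk
      rw [Pi.single_eq_of_ne hk]
      simp
    · intro hj
      exact absurd (Finset.mem_univ j) hj
  simp only [h, form, vec, Finset.mul_sum]
  rw [Finset.sum_comm]
  refine Finset.sum_congr rfl fun j _ => Finset.sum_congr rfl fun i _ => ?_
  ring

lemma vec_single (i : Fin n) : vec (Pi.single i (1 : ℤ)) = Pi.single i (1 : ℝ) := by
  funext j
  by_cases h : j = i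
  · subst h
    simp [vec]
  · simp [vec, h]

lemma form_single_left (G : Matrix (Fin n) (Fin n) ℤ) (i : Fin n) (w : Fin n → ℝ) :
    form G (Pi.single i 1) w = ((G.map (fun a : ℤ => (a : ℝ))).mulVec w) i := by
  simp only [form, Matrix.mulVec, dotProduct, Matrix.map_apply]
  rw [Finset.sum_eq_single i]
  · simp
  · intro k _ hk
    rw [Pi.single_eq_of_ne hk]
    simp
  · intro hj
    exact absurd (Finset.mem_univ i) hj

lemma form_eq_double (G : Matrix (Fin n) (Fin n) ℤ) (u v : Fin n → ℝ) :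
    form G u v = ∑ i, ∑ j, u i * v j * (qi G (Pi.single i 1) (Pi.single j 1) : ℝ) := by
  have h : ∀ i j, (qi G (Pi.single i 1) (Pi.single j 1) : ℝ) = G i j := by
    intro i j
    rw [qi_cast, vec_single, form_single_left, vec_single]
    simp [Matrix.mulVec, dotProduct, Pi.single_apply]
  simp only [h, form]
  refine Finset.sum_congr rfl fun i _ => Finset.sum_congr rfl fun j _ => ?_
  ring

/-- the form is nondegenerate, so the coordinates are limits of values of the form. -/
lemma det_ne (G : Matrix (Fin n) (Fin n) ℤ) (hG : G.IsSymm) (hS : SignatureThree G) :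
    (G.map (fun a : ℤ => (a : ℝ))).det ≠ 0 := by
  intro h
  obtain ⟨x, hx, hGx⟩ := Matrix.exists_mulVec_eq_zero_iff.2 h
  obtain ⟨a, b, c, -, -, -, -, -, -, hneg⟩ := hS
  have h0 : ∀ y, form G y x = 0 := by
    intro y
    have : form G y x = ∑ i, y i * ((G.map (fun a : ℤ => (a : ℝ))).mulVec x) i := by
      simp only [form, Matrix.mulVec, dotProduct, Matrix.map_apply, Finset.mul_sum]
      refine Finset.sum_congr rfl fun i _ => Finset.sum_congr rfl fun j _ => ?_
      ring
    rw [this, hGx]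
    simp
  have := hneg x (by rw [form_symm G hG, h0]) (by rw [form_symm G hG, h0])
    (by rw [form_symm G hG, h0]) hx
  rw [h0] at this
  exact lt_irrefl _ this

lemma coord (G : Matrix (Fin n) (Fin n) ℤ) (hG : G.IsSymm) (hS : SignatureThree G)
    (p : ℕ → Fin n → ℤ) (s : ℕ → ℝ) (u : Fin n → ℝ)
    (h : ∀ x : Fin n → ℤ, Tendsto (fun k => s k * (qi G x (p k) : ℝ)) atTop
      (𝓝 (form G (vec x) u))) :
    Tendsto (fun k => s k • vec (p k)) atTop (𝓝 u) := by
  have hdet := det_ne G hG hS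
  set M := G.map (fun a : ℤ => (a : ℝ)) with hM
  have hinv : ∀ w : Fin n → ℝ, w = M⁻¹.mulVec (M.mulVec w) := by
    intro w
    rw [Matrix.mulVec_mulVec, Matrix.nonsing_inv_mul _ (isUnit_iff_ne_zero.2 hdet),
      Matrix.one_mulVec]
  rw [tendsto_pi_nhds]
  intro i
  have e1 : ∀ k, (s k • vec (p k)) i =
      ∑ j, M⁻¹ i j * (s k * (qi G (Pi.single j 1) (p k) : ℝ)) := by
    intro k
    conv_lhs => rw [hinv (s k • vec (p k))]
    simp only [Matrix.mulVec, dotProduct]
    refine Finset.sum_congr rfl fun j _ => ?_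
    congr 1
    rw [qi_cast, vec_single, form_single_left, ← hM]
    simp only [Matrix.mulVec, dotProduct, Pi.smul_apply, smul_eq_mul, Finset.mul_sum]
    refine Finset.sum_congr rfl fun l _ => ?_
    ring
  have e2 : u i = ∑ j, M⁻¹ i j * form G (vec (Pi.single j 1)) u := by
    conv_lhs => rw [hinv u]
    simp only [Matrix.mulVec, dotProduct]
    refine Finset.sum_congr rfl fun j _ => ?_
    congr 1
    rw [vec_single, form_single_left, ← hM]
    simp only [Matrix.mulVec, dotProduct]
  simp only [e1]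
  rw [e2]
  exact tendsto_finsetSum _ fun j _ => (h (Pi.single j 1)).const_mul _

lemma finrank_fun : Module.finrank ℤ (Fin n → ℤ) = n := by simp

/-- THE PARABOLIC GROUP. -/
lemma group (G : Matrix (Fin n) (Fin n) ℤ) (hG : G.IsSymm) (hS : SignatureThree G)
    (L A p1 p2 : Fin n → ℤ) (hLL : qi G L L = 0) (hA : 0 < qi G A A) (hAL : 0 < qi G A L)
    (h1 : 0 < qi G p1 p1) (h2 : 0 < qi G p2 p2) (h12 : qi G p1 p2 = 0)
    (hA1 : qi G A p1 = 0) (hA2 : qi G A p2 = 0) (hL1 : qi G L p1 = 0) (hL2 : qi G L p2 = 0) :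
    ∃ T : (Fin (n - 4) → ℤ) → ((Fin n → ℤ) ≃ₗ[ℤ] (Fin n → ℤ)),
      (∀ m m' x, T (m + m') x = T m (T m' x)) ∧
      (∀ m x y, qi G (T m x) (T m y) = qi G x y) ∧
      (∀ m, T m L = L ∧ T m p1 = p1 ∧ T m p2 = p2) ∧
      ∀ m, m ≠ 0 → ∃ c : ℤ, 0 < c ∧ ∀ k : ℤ, qi G A (T (k • m) A) = qi G A A + k ^ 2 * c := by
  have hq := isForm G hG
  have hs := sig G hG hS
  by_cases hn : 4 ≤ n
  · obtain ⟨b, hbl, hb⟩ := vectors (n - 4) inferInstance inferInstance
      (by rw [finrank_fun]; omega) (qi G) hq.add p1 p2 A L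
    let bb : (Fin (n - 4) → ℤ) →+ (Fin n → ℤ) :=
      { toFun := fun m => ∑ i, m i • b i
        map_zero' := by simp
        map_add' := by
          intro x y
          rw [← Finset.sum_add_distrib]
          refine Finset.sum_congr rfl fun i _ => ?_
          rw [← add_smul, Pi.add_apply] }
    have hbb : ∀ m, bb m = ∑ i, m i • b i := fun m => rfl
    have hbq : ∀ m v, (∀ i, qi G (b i) v = 0) → qi G (bb m) v = 0 := by
      intro m v hv
      rw [hbb, hq.sum_left]
      exact Finset.sum_eq_zero fun i _ => by rw [hq.zsmul_left, hv i, mul_zero]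
    have hbL : ∀ m, qi G (bb m) L = 0 := fun m => hbq m L fun i => (hb i).2.2.2
    have hbA : ∀ m, qi G (bb m) A = 0 := fun m => hbq m A fun i => (hb i).2.2.1
    have hb1 : ∀ m, qi G (bb m) p1 = 0 := fun m => hbq m p1 fun i => (hb i).1
    have hb2 : ∀ m, qi G (bb m) p2 = 0 := fun m => hbq m p2 fun i => (hb i).2.1
    have hneg : ∀ m, m ≠ 0 → qi G (bb m) (bb m) < 0 := by
      intro m hm
      refine hs p1 p2 A h1 h2 hA h12 (by rw [hq.symm, hA1]) (by rw [hq.symm, hA2]) (bb m)
        (hb1 m) (hb2 m) (hbA m) ?_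
      intro h0
      apply hm
      funext i
      exact Fintype.linearIndependent_iff.1 hbl m (by rw [← hbb, h0]) i
    refine ⟨fun m => (tvEquiv hq hLL (hbL m)).toIntLinearEquiv, ?_, ?_, ?_, ?_⟩
    · intro m m' x
      change tv (qi G) L (bb (m + m')) x = tv (qi G) L (bb m) (tv (qi G) L (bb m') x)
      rw [tv_comp hq hLL (hbL m) (hbL m'), map_add]
    · intro m x y
      exact tv_isom hq hLL (hbL m) x y
    · intro m
      exact ⟨tv_fix hLL (hbL m), tv_fix hL1 (hb1 m), tv_fix hL2 (hb2 m)⟩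
    · intro m hm
      refine ⟨-2 * qi G (bb m) (bb m) * (qi G A L) ^ 2, ?_, ?_⟩
      · have := hneg m hm
        have h3 : 0 < (qi G A L) ^ 2 := by positivity
        have h4 : 0 < -2 * qi G (bb m) (bb m) := by linarith
        positivity
      · intro k
        change qi G A (tv (qi G) L (bb (k • m)) A) = _
        rw [map_zsmul, tv, hq.sub_right, hq.add_right, hq.zsmul_right, hq.zsmul_right,
          hq.zsmul_right, hq.zsmul_left, hq.zsmul_left, hq.zsmul_right, hq.symm A (bb m), hbA m,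
          hq.symm L A]
        ring
  · have hn0 : n - 4 = 0 := by omega
    refine ⟨fun _ => LinearEquiv.refl ℤ _, fun _ _ _ => rfl, fun _ _ _ => rfl,
      fun _ => ⟨rfl, rfl, rfl⟩, ?_⟩
    intro m hm
    exfalso
    apply hm
    funext i
    have := i.2
    omega

/-- THE LATTICE THEOREM. -/
theorem main (G : Matrix (Fin n) (Fin n) ℤ) (hG : G.IsSymm) (hS : SignatureThree G)
    (L A : Fin n → ℤ) (hLL : form G (vec L) (vec L) = 0) (hA : 0 < form G (vec A) (vec A))
    (hAL : 0 < form G (vec A) (vec L))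
    (u v : Fin n → ℝ) (hu : 0 < form G u u) (hv : 0 < form G v v) (huv : form G u v = 0)
    (huL : form G u (vec L) = 0) (huA : form G u (vec A) = 0)
    (hvL : form G v (vec L) = 0) (hvA : form G v (vec A) = 0)
    (B ε : ℝ) (hε : 0 < ε) :
    ∃ (p1 p2 : Fin n → ℤ) (s t : ℝ), 0 < s ∧ 0 < t ∧ ‖s • vec p1 - u‖ < ε ∧
      ‖t • vec p2 - v‖ < ε ∧ form G (vec p1) (vec p2) = 0 ∧
      form G (vec A) (vec p1) = 0 ∧ form G (vec A) (vec p2) = 0 ∧
      form G (vec L) (vec p1) = 0 ∧ form G (vec L) (vec p2) = 0 ∧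
      0 < form G (vec p1) (vec p1) ∧ 0 < form G (vec p2) (vec p2) ∧
      (∀ y : Fin n → ℝ, form G y (vec p1) = 0 → form G y (vec p2) = 0 → 0 < form G y (vec L) →
        0 < form G y y → B * (form G y (vec L)) ^ 2 < form G y y →
        ∀ z : Fin n → ℤ, form G (vec z) (vec p1) = 0 → form G (vec z) (vec p2) = 0 →
          - B ≤ form G (vec z) (vec z) → form G (vec z) (vec z) < 0 →
          0 < form G (vec z) (vec L) * form G (vec z) y) ∧
      ∃ T : (Fin (n - 4) → ℤ) → ((Fin n → ℤ) ≃ₗ[ℤ] (Fin n → ℤ)),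
        (∀ m m' x, T (m + m') x = T m (T m' x)) ∧
        (∀ m x y, form G (vec (T m x)) (vec (T m y)) = form G (vec x) (vec y)) ∧
        (∀ m, T m L = L ∧ T m p1 = p1 ∧ T m p2 = p2) ∧
        ∀ m, m ≠ 0 → ∃ c : ℝ, 0 < c ∧ ∀ k : ℤ,
          form G (vec A) (vec (T (k • m) A)) = form G (vec A) (vec A) + (k : ℝ) ^ 2 * c := by
  have hq := isForm G hG
  have hs := sig G hG hS
  have iLL : qi G L L = 0 := by rw [← qi_cast] at hLL; exact_mod_cast hLL
  have iA : 0 < qi G A A := by rw [← qi_cast] at hA; exact_mod_cast hA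
  have iAL : 0 < qi G A L := by rw [← qi_cast] at hAL; exact_mod_cast hAL
  obtain ⟨p1, p2, s, t, hgood, hlim⟩ := dense_good inferInstance (qi G) hq hs A L iA iLL iAL
    (fun j : Fin n => (Pi.single j 1 : Fin n → ℤ)) u v
    (by rw [← form_eq_double]; exact hu) (by rw [← form_eq_double]; exact hv)
    (by rw [← form_eq_double]; exact huv)
    (by rw [← form_vec_left, form_symm G hG]; exact huA)
    (by rw [← form_vec_left, form_symm G hG]; exact huL)
    (by rw [← form_vec_left, form_symm G hG]; exact hvA)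
    (by rw [← form_vec_left, form_symm G hG]; exact hvL) ⌈B⌉
  have hl1 : Tendsto (fun k => s k • vec (p1 k)) atTop (𝓝 u) :=
    coord G hG hS p1 s u fun x => by rw [form_vec_left]; exact (hlim x).1
  have hl2 : Tendsto (fun k => t k • vec (p2 k)) atTop (𝓝 v) :=
    coord G hG hS p2 t v fun x => by rw [form_vec_left]; exact (hlim x).2
  have ev1 := (Metric.tendsto_nhds.1 hl1) ε hε
  have ev2 := (Metric.tendsto_nhds.1 hl2) ε hε
  obtain ⟨k, hk1, hk2⟩ := (ev1.and ev2).exists
  obtain ⟨hs0, ht0, h1, h2, h12, hA1, hA2, hL1, hL2, hno⟩ := hgood k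
  obtain ⟨T, hT1, hT2, hT3, hT4⟩ := group G hG hS L A (p1 k) (p2 k) iLL iA iAL h1 h2 h12 hA1 hA2
    hL1 hL2
  refine ⟨p1 k, p2 k, s k, t k, hs0, ht0, by rwa [dist_eq_norm] at hk1,
    by rwa [dist_eq_norm] at hk2, ?_, ?_, ?_, ?_, ?_, ?_, ?_, ?_, T, hT1, ?_, hT3, ?_⟩
  · rw [← qi_cast]; exact_mod_cast h12
  · rw [← qi_cast]; exact_mod_cast hA1
  · rw [← qi_cast]; exact_mod_cast hA2
  · rw [← qi_cast]; exact_mod_cast hL1
  · rw [← qi_cast]; exact_mod_cast hL2
  · rw [← qi_cast]; exact_mod_cast h1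
  · rw [← qi_cast]; exact_mod_cast h2
  · intro y hy1 hy2 hyL hyy hyB z hz1 hz2 hzB hz
    have iz1 : qi G z (p1 k) = 0 := by rw [← qi_cast] at hz1; exact_mod_cast hz1
    have iz2 : qi G z (p2 k) = 0 := by rw [← qi_cast] at hz2; exact_mod_cast hz2
    have iz : qi G z z < 0 := by
      have := hz
      rw [← qi_cast] at this
      exact_mod_cast this
    have izB : - ⌈B⌉ ≤ qi G z z := by
      have := hzB
      rw [← qi_cast] at this
      have h3 : (- (⌈B⌉ : ℝ)) ≤ (qi G z z : ℝ) := by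
        have := Int.le_ceil B
        linarith
      exact_mod_cast h3
    have izL : qi G z L ≠ 0 := fun h => hno z iz1 iz2 h izB iz
    have fp1 : 0 < form G (vec (p1 k)) (vec (p1 k)) := by rw [← qi_cast]; exact_mod_cast h1
    have fp2 : 0 < form G (vec (p2 k)) (vec (p2 k)) := by rw [← qi_cast]; exact_mod_cast h2
    have fp12 : form G (vec (p1 k)) (vec (p2 k)) = 0 := by rw [← qi_cast]; exact_mod_cast h12
    have fL1 : form G (vec L) (vec (p1 k)) = 0 := by rw [← qi_cast]; exact_mod_cast hL1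
    have fL2 : form G (vec L) (vec (p2 k)) = 0 := by rw [← qi_cast]; exact_mod_cast hL2
    rcases lt_or_gt_of_ne izL with h | h
    · -- replace `z` by `-z`
      have hle : (qi G z L : ℝ) ≤ -1 := by
        have : qi G z L ≤ -1 := by omega
        exact_mod_cast this
      have := chamber G hG hS (z := (-1 : ℝ) • vec z) fp1 fp2 fp12 fL1 fL2 hLL hy1 hy2 hyy hyL hyB
        (by rw [form_smul, hz1, mul_zero]) (by rw [form_smul, hz2, mul_zero])
        (by rw [form_smul, form_smul_right]; linarith)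
        (by rw [form_smul, form_smul_right]; linarith)
        (by rw [form_smul, ← qi_cast]; linarith)
      rw [form_smul] at this
      have h5 : form G (vec z) (vec L) < 0 := by rw [← qi_cast]; linarith
      exact mul_pos_of_neg_of_neg h5 (by linarith)
    · have hge : (1 : ℝ) ≤ qi G z L := by
        have : 1 ≤ qi G z L := by omega
        exact_mod_cast this
      have := chamber G hG hS (z := vec z) fp1 fp2 fp12 fL1 fL2 hLL hy1 hy2 hyy hyL hyB
        hz1 hz2 hz hzB (by rw [← qi_cast]; exact hge)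
      have h5 : 0 < form G (vec z) (vec L) := by rw [← qi_cast]; linarith
      exact mul_pos h5 this
  · intro m x y
    rw [← qi_cast, ← qi_cast, hT2]
  · intro m hm
    obtain ⟨c, hc, hk⟩ := hT4 m hm
    refine ⟨c, by exact_mod_cast hc, fun k => ?_⟩
    rw [← qi_cast, ← qi_cast, hk]
    push_cast
    ring

end Pool.Agent.H78.RP
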