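import Pool.Agent.H47.P.DENS
import Pool.Agent.H83.HN.LAT3

/-!
# Rational periods near a given period and parabolic isometries: the lattice theorem
-/

namespace Pool.Agent.H78.RP

open Filter Topology Pool.Agent.H83.HN Pool.Agent.H47.P
open scoped BigOperators

variable {n : ℕ}

/-- The bilinear form with Gram matrix `G` on `ℝ^n`. -/
def form (G : Matrix (Fin n) (Fin n) ℤ) (x y : Fin n → ℝ) : ℝ :=
  ∑ i, ∑ j, x i * (G i j : ℝ) * y j

/-- The integer vector `x` as a real vector. -/
def vec (x : Fin n → ℤ) : Fin n → ℝ := fun i => (x i : ℝ)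

/-- The form with Gram matrix `G` has signature `(3, n - 3)`. -/
def SignatureThree (G : Matrix (Fin n) (Fin n) ℤ) : Prop :=
  ∃ a b c : Fin n → ℝ, 0 < form G a a ∧ 0 < form G b b ∧ 0 < form G c c ∧
    form G a b = 0 ∧ form G a c = 0 ∧ form G b c = 0 ∧
    ∀ x, form G x a = 0 → form G x b = 0 → form G x c = 0 → x ≠ 0 → form G x x < 0

/-- The integral form. -/
def qi (G : Matrix (Fin n) (Fin n) ℤ) (x y : Fin n → ℤ) : ℤ := ∑ i, ∑ j, x i * G i j * y j

lemma qi_cast (G : Matrix (Fin n) (Fin n) ℤ) (x y : Fin n → ℤ) :
    (qi G x y : ℝ) = form G (vec x) (vec y) := by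
  simp [qi, form, vec]

lemma form_add (G : Matrix (Fin n) (Fin n) ℤ) (x y z : Fin n → ℝ) :
    form G (x + y) z = form G x z + form G y z := by
  simp only [form, Pi.add_apply, add_mul, Finset.sum_add_distrib]

lemma form_smul (G : Matrix (Fin n) (Fin n) ℤ) (c : ℝ) (x z : Fin n → ℝ) :
    form G (c • x) z = c * form G x z := by
  simp only [form, Pi.smul_apply, smul_eq_mul, Finset.mul_sum, mul_assoc]

lemma form_symm (G : Matrix (Fin n) (Fin n) ℤ) (hG : G.IsSymm) (x y : Fin n → ℝ) :
    form G x y = form G y x := by
  simp only [form]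
  rw [Finset.sum_comm]
  refine Finset.sum_congr rfl fun i _ => Finset.sum_congr rfl fun j _ => ?_
  rw [hG.apply j i |>.symm]
  ring

lemma form_add_right (G : Matrix (Fin n) (Fin n) ℤ) (x y z : Fin n → ℝ) :
    form G z (x + y) = form G z x + form G z y := by
  simp only [form, Pi.add_apply, mul_add, Finset.sum_add_distrib]

lemma form_smul_right (G : Matrix (Fin n) (Fin n) ℤ) (c : ℝ) (x z : Fin n → ℝ) :
    form G z (c • x) = c * form G z x := by
  simp only [form, Pi.smul_apply, smul_eq_mul, Finset.mul_sum]
  refine Finset.sum_congr rfl fun i _ => Finset.sum_congr rfl fun j _ => ?_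
  ring

lemma vec_add (x y : Fin n → ℤ) : vec (x + y) = vec x + vec y := by
  funext i
  simp [vec]

lemma vec_ne {x : Fin n → ℤ} (hx : x ≠ 0) : vec x ≠ 0 := by
  intro h
  apply hx
  funext i
  have := congrFun h i
  simpa [vec] using this

lemma isForm (G : Matrix (Fin n) (Fin n) ℤ) (hG : G.IsSymm) : IsForm (qi G) where
  symm x y := by
    have := form_symm G hG (vec x) (vec y)
    rw [← qi_cast, ← qi_cast] at this
    exact_mod_cast this
  add x y z := by
    have := form_add G (vec x) (vec y) (vec z)
    rw [← vec_add, ← qi_cast, ← qi_cast, ← qi_cast] at this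
    exact_mod_cast this

/-- SYLVESTER: every real triple of pairwise orthogonal vectors of positive square has a negative
definite complement. -/
lemma sylvester (G : Matrix (Fin n) (Fin n) ℤ) (hG : G.IsSymm) (hS : SignatureThree G)
    (a b c x : Fin n → ℝ) (ha : 0 < form G a a) (hb : 0 < form G b b) (hc : 0 < form G c c)
    (hab : form G a b = 0) (hac : form G a c = 0) (hbc : form G b c = 0)
    (hxa : form G x a = 0) (hxb : form G x b = 0) (hxc : form G x c = 0) (hx : x ≠ 0) :
    form G x x < 0 := by
  obtain ⟨e1, e2, e3, -, -, -, -, -, -, hneg⟩ := hS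
  by_contra hxx
  push Not at hxx
  -- the map from four dimensions to three
  let w : Fin 4 → (Fin n → ℝ) := ![a, b, c, x]
  let e : Fin 3 → (Fin n → ℝ) := ![e1, e2, e3]
  let comb : (Fin 4 → ℝ) →ₗ[ℝ] (Fin n → ℝ) :=
    { toFun := fun t => t 0 • a + t 1 • b + t 2 • c + t 3 • x
      map_add' := fun s t => by simp only [Pi.add_apply, add_smul]; abel
      map_smul' := fun r t => by
        simp only [Pi.smul_apply, smul_eq_mul, mul_smul, smul_add, RingHom.id_apply] }
  let F : (Fin 4 → ℝ) →ₗ[ℝ] (Fin 3 → ℝ) :=
    { toFun := fun t k => form G (comb t) (e k)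
      map_add' := fun s t => by funext k; simp only [map_add, form_add, Pi.add_apply]
      map_smul' := fun r t => by
        funext k
        simp only [map_smul, form_smul, Pi.smul_apply, smul_eq_mul, RingHom.id_apply] }
  have hker : LinearMap.ker F ≠ ⊥ := by
    apply LinearMap.ker_ne_bot_of_finrank_lt
    simp
  obtain ⟨t, htF, ht0⟩ := (Submodule.ne_bot_iff _).1 hker
  have hF : ∀ k, form G (comb t) (e k) = 0 := fun k => congrFun (LinearMap.mem_ker.1 htF) k
  have hcomb : comb t = t 0 • a + t 1 • b + t 2 • c + t 3 • x := rfl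
  have hsq : form G (comb t) (comb t) =
      t 0 ^ 2 * form G a a + t 1 ^ 2 * form G b b + t 2 ^ 2 * form G c c + t 3 ^ 2 * form G x x := by
    rw [hcomb]
    simp only [form_add, form_add_right, form_smul, form_smul_right, hab, hac, hbc, hxa, hxb, hxc,
      form_symm G hG b a, form_symm G hG c a, form_symm G hG c b, form_symm G hG a x,
      form_symm G hG b x, form_symm G hG c x]
    ring
  have hnn : 0 ≤ form G (comb t) (comb t) := by
    rw [hsq]
    positivity
  have hz : comb t = 0 := by
    by_contra h
    exact absurd (hneg (comb t) (hF 0) (hF 1) (hF 2) h) (not_lt.2 hnn)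
  have h0 : form G (comb t) (comb t) = 0 := by
    rw [hz]
    simp [form]
  rw [hsq] at h0
  have p0 : 0 ≤ t 0 ^ 2 * form G a a := by positivity
  have p1 : 0 ≤ t 1 ^ 2 * form G b b := by positivity
  have p2 : 0 ≤ t 2 ^ 2 * form G c c := by positivity
  have p3 : 0 ≤ t 3 ^ 2 * form G x x := by positivity
  have z0 : t 0 = 0 := by
    have : t 0 ^ 2 * form G a a = 0 := by linarith
    rcases mul_eq_zero.1 this with h | h
    · exact pow_eq_zero_iff (two_ne_zero) |>.1 h
    · exact absurd h ha.ne'
  have z1 : t 1 = 0 := by
    have : t 1 ^ 2 * form G b b = 0 := by linarith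
    rcases mul_eq_zero.1 this with h | h
    · exact pow_eq_zero_iff (two_ne_zero) |>.1 h
    · exact absurd h hb.ne'
  have z2 : t 2 = 0 := by
    have : t 2 ^ 2 * form G c c = 0 := by linarith
    rcases mul_eq_zero.1 this with h | h
    · exact pow_eq_zero_iff (two_ne_zero) |>.1 h
    · exact absurd h hc.ne'
  have z3 : t 3 = 0 := by
    rw [hcomb, z0, z1, z2] at hz
    simp only [zero_smul, zero_add] at hz
    rcases smul_eq_zero.1 hz with h | h
    · exact h
    · exact absurd h hx
  apply ht0
  funext k
  fin_cases k
  · exact z0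
  · exact z1
  · exact z2
  · exact z3

lemma sig (G : Matrix (Fin n) (Fin n) ℤ) (hG : G.IsSymm) (hS : SignatureThree G) :
    Sig (qi G) := by
  intro a b c ha hb hc hab hac hbc x hxa hxb hxc hx
  have := sylvester G hG hS (vec a) (vec b) (vec c) (vec x)
    (by rw [← qi_cast]; exact_mod_cast ha) (by rw [← qi_cast]; exact_mod_cast hb)
    (by rw [← qi_cast]; exact_mod_cast hc) (by rw [← qi_cast]; exact_mod_cast hab)
    (by rw [← qi_cast]; exact_mod_cast hac) (by rw [← qi_cast]; exact_mod_cast hbc)
    (by rw [← qi_cast]; exact_mod_cast hxa) (by rw [← qi_cast]; exact_mod_cast hxb)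
    (by rw [← qi_cast]; exact_mod_cast hxc) (vec_ne hx)
  rw [← qi_cast] at this
  exact_mod_cast this

/-- THE HOROBALL inequality over the reals. -/
lemma horo_real (G : Matrix (Fin n) (Fin n) ℤ) (hG : G.IsSymm) (hS : SignatureThree G)
    {p1 p2 L y z : Fin n → ℝ} (h1 : 0 < form G p1 p1)
    (h2 : 0 < form G p2 p2) (h12 : form G p1 p2 = 0) (hL1 : form G L p1 = 0)
    (hL2 : form G L p2 = 0) (hLL : form G L L = 0) (hy1 : form G y p1 = 0)
    (hy2 : form G y p2 = 0) (hy : 0 < form G y y)
    (hz1 : form G z p1 = 0) (hz2 : form G z p2 = 0) (hz : form G z z < 0)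
    (hyz : form G y z = 0) :
    (form G L z) ^ 2 * form G y y ≤ (- form G z z) * (form G L y) ^ 2 := by
  set w : Fin n → ℝ := (form G y y * form G z z) • L + (-(form G L y * form G z z)) • y +
    (-(form G L z * form G y y)) • z with hw
  have hzy : form G z y = 0 := by rw [form_symm G hG, hyz]
  have hyL : form G y L = form G L y := form_symm G hG _ _
  have hzL : form G z L = form G L z := form_symm G hG _ _
  have hwy : form G w y = 0 := by
    rw [hw, form_add, form_add, form_smul, form_smul, form_smul, hzy]
    ring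
  have hwz : form G w z = 0 := by
    rw [hw, form_add, form_add, form_smul, form_smul, form_smul, hyz]
    ring
  have hwL : form G w L = - (form G L y) ^ 2 * form G z z - (form G L z) ^ 2 * form G y y := by
    rw [hw, form_add, form_add, form_smul, form_smul, form_smul, hLL, hyL, hzL]
    ring
  have hw1 : form G w p1 = 0 := by
    rw [hw, form_add, form_add, form_smul, form_smul, form_smul, hL1, hy1, hz1]
    ring
  have hw2 : form G w p2 = 0 := by
    rw [hw, form_add, form_add, form_smul, form_smul, form_smul, hL2, hy2, hz2]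
    ring
  have hww : form G w w = (form G y y * form G z z) * form G w L := by
    have : form G w w = (form G y y * form G z z) * form G w L +
        (-(form G L y * form G z z)) * form G w y + (-(form G L z * form G y y)) * form G w z := by
      conv_lhs => rw [hw]
      rw [← hw, form_add, form_add, form_smul, form_smul, form_smul, form_symm G hG L w,
        form_symm G hG y w, form_symm G hG z w]
    rw [this, hwy, hwz]
    ring
  have hle : form G w w ≤ 0 := by
    by_cases hw0 : w = 0
    · rw [hw0]
      simp [form]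
    · exact (sylvester G hG hS p1 p2 y w h1 h2 hy h12 (by rw [form_symm G hG, hy1])
        (by rw [form_symm G hG, hy2]) hw1 hw2 hwy hw0).le
  have hneg : form G y y * form G z z < 0 := mul_neg_of_pos_of_neg hy hz
  have hwL' : 0 ≤ form G w L := by
    by_contra h
    push Not at h
    have := mul_pos_of_neg_of_neg hneg h
    rw [← hww] at this
    linarith
  rw [hwL] at hwL'
  linarith

/-- No wall meets the horoball, and all its points are on the side of `L`. -/
lemma chamber (G : Matrix (Fin n) (Fin n) ℤ) (hG : G.IsSymm) (hS : SignatureThree G)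
    {p1 p2 L y z : Fin n → ℝ} {B : ℝ} (h1 : 0 < form G p1 p1)
    (h2 : 0 < form G p2 p2) (h12 : form G p1 p2 = 0) (hL1 : form G L p1 = 0)
    (hL2 : form G L p2 = 0) (hLL : form G L L = 0) (hy1 : form G y p1 = 0)
    (hy2 : form G y p2 = 0) (hy : 0 < form G y y) (hyL : 0 < form G y L)
    (hyB : B * (form G y L) ^ 2 < form G y y)
    (hz1 : form G z p1 = 0) (hz2 : form G z p2 = 0) (hz : form G z z < 0)
    (hzB : - B ≤ form G z z) (hzL : 1 ≤ form G z L) : 0 < form G z y := by
  by_contra h
  push Not at h
  set y' : Fin n → ℝ := (form G z L) • y + (- form G z y) • L with hy'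
  have hyz : form G y z = form G z y := form_symm G hG _ _
  have hLz : form G L z = form G z L := form_symm G hG _ _
  have hLy : form G L y = form G y L := form_symm G hG _ _
  have e1 : form G y' z = 0 := by
    rw [hy', form_add, form_smul, form_smul, hyz, hLz]
    ring
  have e2 : form G y' p1 = 0 := by
    rw [hy', form_add, form_smul, form_smul, hy1, hL1]
    ring
  have e3 : form G y' p2 = 0 := by
    rw [hy', form_add, form_smul, form_smul, hy2, hL2]
    ring
  have e4 : form G y' y' = (form G z L) ^ 2 * form G y y +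
      2 * (form G z L * (- form G z y)) * form G y L := by
    rw [hy', form_add, form_smul, form_smul, form_add_right, form_add_right, form_smul_right,
      form_smul_right, form_smul_right, form_smul_right, hLL, hLy]
    ring
  have e5 : form G L y' = form G z L * form G y L := by
    rw [hy', form_add_right, form_smul_right, form_smul_right, hLL, hLy]
    ring
  have hpos : 0 ≤ (form G z L * (- form G z y)) * form G y L := by
    apply mul_nonneg (mul_nonneg (by linarith) (by linarith)) hyL.le
  have e6 : (form G z L) ^ 2 * form G y y ≤ form G y' y' := by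
    rw [e4]
    linarith
  have e7 : 0 < (form G z L) ^ 2 * form G y y := by
    have : 0 < form G z L := by linarith
    positivity
  have e8 := horo_real G hG hS h1 h2 h12 hL1 hL2 hLL e2 e3 (by linarith) hz1 hz2 hz e1
  rw [e5, hLz] at e8
  -- `(z,L)^2 (z,L)^2 (y,y) ≤ B (z,L)^2 (y,L)^2`
  have e9 : (form G z L) ^ 2 * ((form G z L) ^ 2 * form G y y) ≤
      B * (form G z L * form G y L) ^ 2 := by
    calc (form G z L) ^ 2 * ((form G z L) ^ 2 * form G y y)
        ≤ (form G z L) ^ 2 * form G y' y' := mul_le_mul_of_nonneg_left e6 (by positivity)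
      _ ≤ (- form G z z) * (form G z L * form G y L) ^ 2 := e8
      _ ≤ B * (form G z L * form G y L) ^ 2 :=
        mul_le_mul_of_nonneg_right (by linarith) (by positivity)
  have e10 : (form G z L) ^ 2 * form G y y ≤ B * (form G y L) ^ 2 := by
    have h4 : 0 < (form G z L) ^ 2 := by
      have : 0 < form G z L := by linarith
      positivity
    have : (form G z L) ^ 2 * ((form G z L) ^ 2 * form G y y) ≤
        (form G z L) ^ 2 * (B * (form G y L) ^ 2) := by
      calc _ ≤ _ := e9
        _ = _ := by ring
    exact le_of_mul_le_mul_left this h4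
  have e11 : form G y y ≤ (form G z L) ^ 2 * form G y y := by
    have : 1 ≤ (form G z L) ^ 2 := by nlinarith
    nlinarith
  linarith

end Pool.Agent.H78.RP
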